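import Pool.Agent.PST.StmtsU
import Pool.Agent.Helper92_PSS.FCO
import Pool.Agent.Helper77_PSS.FBK
import Pool.Agent.Helper20_PSS.FPX
import Pool.Agent.Helper64_PSS.GFB
import Pool.Agent.Helper28_PSS.BLK

/-!
# Squad PST, block U, row CLC (helper45): vanishing at a subgroup for the base change
-/

set_option autoImplicit false

open scoped BigOperators TensorProduct PowerSeries

noncomputable section

namespace Pool.Agent.PST.U.H45

open Pool.Agent.PFC (tw IsTv)
open Pool.Agent.PFD.D2b (FrR)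
open Pool.Agent.PSS
open Pool.Agent.PSS.S0
open Pool.Agent.PSS.S3
open Pool.Agent.PSS.H64 (bcf bcf_ap bw_t cw_t fx_t sm_t bcw_ap)
open Pool.Agent.PSS.H28 (fx_mul fx_mono)

theorem fco : S0.FcoStmt := S0.H92.fco

theorem fbk : S0.FbkStmt := S0.H77.fbk Pool.Agent.PSS.H20.fpx

section

variable {R S W A : Type} [CommRing R] [CommRing S] [Algebra R S] [CommGroup W]
  [Ring A] [Algebra R A]

/-- the frame of the base change -/
theorem frS (γ : W →* A) {Ω : Type} [Fintype Ω] [MulAction W Ω] (b : Ω → A)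
    (c : Ω → (A →ₗ[R] R)) (hfr : FrR (cw R γ) b c) :
    FrR (cw S (bcw (R := R) (S := S) γ)) (fun ω => (1 : S) ⊗ₜ[R] b ω)
      (fun ω => bcf S (c ω)) := by
  obtain ⟨f1, f2, f3⟩ := hfr
  refine ⟨?_, ?_, ?_⟩
  · intro g ω
    rw [cw_t, ← f1]
  · intro g ω m
    induction m using TensorProduct.induction_on with
    | zero => rw [map_zero, map_zero, map_zero]
    | add m m' h1 h2 => rw [map_add, map_add, map_add, h1, h2]
    | tmul s a => rw [cw_t, bcf_ap, bcf_ap, f2]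
  · intro m
    induction m using TensorProduct.induction_on with
    | zero =>
      refine Finset.sum_eq_zero (fun ω _ => ?_)
      rw [map_zero, zero_smul]
    | add m m' h1 h2 =>
      refine Eq.trans ?_ (congrArg₂ (· + ·) h1 h2)
      rw [← Finset.sum_add_distrib]
      refine Finset.sum_congr rfl (fun ω _ => ?_)
      rw [map_add, add_smul]
    | tmul s a =>
      have h1 := congrArg (fun t => s ⊗ₜ[R] t) (f3 a)
      refine Eq.trans ?_ h1
      change _ = s ⊗ₜ[R] (∑ ω, c ω a • b ω)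
      rw [TensorProduct.tmul_sum]
      refine Finset.sum_congr rfl (fun ω _ => ?_)
      rw [bcf_ap, sm_t]

/-- the coefficients of a tensor in normal form -/
theorem star {n : ℕ} {g : Fin n → S} (hg : LinearIndependent R g) (a : Fin n → A)
    (c : A →ₗ[R] R) (h : bcf S c (∑ i, g i ⊗ₜ[R] a i) = 0) : ∀ i, c (a i) = 0 := by
  rw [map_sum] at h
  have h1 : ∑ i, c (a i) • g i = 0 := by
    rw [← h]
    refine Finset.sum_congr rfl fun i _ => ?_
    rw [bcf_ap, Algebra.smul_def, mul_comm]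
  exact Fintype.linearIndependent_iff.1 hg _ h1

theorem eq_of_coef {Ω : Type} [Fintype Ω] [MulAction W Ω] (γ : W →* A) (b : Ω → A)
    (c : Ω → (A →ₗ[R] R)) (hfr : FrR (cw R γ) b c) {m m' : A}
    (h : ∀ ω, c ω (m - m') = 0) : m = m' := by
  rw [← sub_eq_zero, ← hfr.2.2 (m - m')]
  exact Finset.sum_eq_zero fun ω _ => by rw [h, zero_smul]

end

/-- the frame for conjugation -/
theorem diag {R W E A : Type} [CommRing R] [CommGroup W] [Group E] [Ring A] [Algebra R A]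
    (ψ : E →* MulAut W) (γ : W →* A) (hper : Per R ψ γ) :
    ∃ (Ω : Type) (_ : Fintype Ω) (_ : MulAction W Ω) (b : Ω → A) (c : Ω → (A →ₗ[R] R)),
      FrR (cw R γ) b c := by
  obtain ⟨Ω, i1, act, b, c, hfr, -⟩ := hper
  exact ⟨Ω, i1, MulAction.compHom Ω ((MonoidHom.id W).prod (MonoidHom.id W)), b, c,
    fun g t => hfr.1 (g, g) t, fun g t n => hfr.2.1 (g, g) t n, hfr.2.2⟩

/-- CLC -/
theorem clc (hLIX : LixStmt) : ClcStmt := by
  intro ℓ hp R S W E As _ _ _ _ _ _ _ _ _ _ ψ γ hinj hℓ hW hper Q hV e he hbk hcom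
  obtain ⟨Ω, _, _, b, c, hfr⟩ := diag ψ γ hper
  have hfrS := frS (S := S) γ b c hfr
  have hℓS : (ℓ : S) = 0 := by rw [← map_natCast (algebraMap R S), hℓ, map_zero]
  obtain ⟨n, g, a, hg, rfl⟩ := hLIX R S As hinj e
  -- the `a i` are fixed by `W`
  have h1 : ∀ i, a i ∈ FxR (cw R γ) ⊤ := by
    intro i w _
    refine eq_of_coef γ b c hfr fun ω => ?_
    refine star hg (fun i => cw R γ w (a i) - a i) (c ω) ?_ i
    have h2 := he w (Subgroup.mem_top w)
    rw [map_sum] at h2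
    have h3 : ∑ i, g i ⊗ₜ[R] (cw R γ w (a i) - a i) = 0 := by
      rw [← sub_eq_zero, ← Finset.sum_sub_distrib] at h2
      rw [← h2]
      refine Finset.sum_congr rfl fun i _ => ?_
      rw [cw_t, TensorProduct.tmul_sub]
    rw [h3, map_zero]
  -- the `a i` are in the Brauer kernels above `Q`
  have h2 : ∀ i, ∀ Q' : Subgroup W, Q < Q' → a i ∈ BKR (cw R γ) Q' := by
    intro i Q' hQ'
    refine fbk R W As Ω (cw R γ) b c hfr Q' _ (fx_mono γ le_top (h1 i)) fun ω hω => ?_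
    exact star hg a (c ω) (fco ℓ S W _ Ω _ _ _ hℓS hW hfrS Q' _ (hbk Q' hQ') ω hω) i
  have h3 : ∀ i, ∀ m ∈ FxR (cw R γ) Q, a i * m - m * a i ∈ BKR (cw R γ) Q := by
    intro i m hm
    have hai := fx_mono γ (le_top : Q ≤ ⊤) (h1 i)
    refine fbk R W As Ω (cw R γ) b c hfr Q _
      (Submodule.sub_mem _ (fx_mul γ Q hai hm) (fx_mul γ Q hm hai)) fun ω hω => ?_
    refine star hg (fun i => a i * m - m * a i) (c ω) ?_ i
    have h4 := hcom _ (fx_t (S := S) γ Q hm)
    rw [Finset.sum_mul, Finset.mul_sum, ← Finset.sum_sub_distrib] at h4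
    have h5 : ∑ i, g i ⊗ₜ[R] (a i * m - m * a i) =
        ∑ i, (g i ⊗ₜ[R] a i * (1 : S) ⊗ₜ[R] m - (1 : S) ⊗ₜ[R] m * g i ⊗ₜ[R] a i) := by
      refine Finset.sum_congr rfl fun i _ => ?_
      rw [Algebra.TensorProduct.tmul_mul_tmul, Algebra.TensorProduct.tmul_mul_tmul, one_mul,
        mul_one, TensorProduct.tmul_sub]
    rw [h5]
    exact fco ℓ S W _ Ω _ _ _ hℓS hW hfrS Q _ h4 ω hω
  refine fbk S W _ Ω _ _ _ hfrS Q _ (fx_mono _ le_top he) fun ω hω => ?_
  change bcf S (c ω) (∑ i, g i ⊗ₜ[R] a i) = 0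
  rw [map_sum]
  refine Finset.sum_eq_zero fun i _ => ?_
  rw [bcf_ap, fco ℓ R W _ Ω _ _ _ hℓ hW hfr Q _ (hV (a i) (h1 i) (h2 i) (h3 i)) ω hω, map_zero,
    mul_zero]

end Pool.Agent.PST.U.H45
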