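import Pool.Agent.PST.StmtsK3

/-!
# Squad PST, block KEY, row OBX (helper45): the central elements of a cocycle
-/

set_option autoImplicit false

open scoped BigOperators

noncomputable section

namespace Pool.Agent.PST.H45

open Pool.Agent.PFC (tw IsTv)
open Pool.Agent.PFD.D2 (Cdv FibG)
open Pool.Agent.PFD.D2b (FrR)
open Pool.Agent.PSS
open Pool.Agent.PSS.S0 (IsBQ)

/-- a fixed element commutes with the group -/
theorem fx_comm {R V A : Type} [CommRing R] [CommGroup V] [Ring A] [Algebra R A] (α : V →* A)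
    (T : Subgroup V) {z : A} (hz : z ∈ FxR (cw R α) T) {u : V} (hu : u ∈ T) :
    z * α u = α u * z := by
  have h : α u * (z * α u⁻¹) = z := hz u hu
  calc z * α u = α u * (z * α u⁻¹) * α u := by rw [h]
    _ = α u * z * (α u⁻¹ * α u) := by simp only [mul_assoc]
    _ = α u * z := by rw [← map_mul, inv_mul_cancel, map_one, mul_one]

/-- OBX -/
theorem obx (hOBA : ObaStmt) (hLFX : LfxStmt) : ObxStmt := by
  intro ℓ hp R K F V E A A₀ B κ Ω BT KT _ _ _ _ _ _ _ _ _ _ _ _ _ _ _ _ _ _ _ _ _ _ φ W α lam x y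
    b c C cv f α₀ lam₀ x₀ y₀ b₀ c₀ cc T αT β lamT xT yT w hK hZ hBQ hRF hlam hw
  obtain ⟨o1, o2, o3, o4⟩ := hOBA R K V A B κ Ω W α lam x y b c C cc hZ
  obtain ⟨l1, -, -⟩ := hLFX R F V A A₀ κ Ω cv f α₀ lam₀ x₀ y₀ b₀ c₀ α lam x y b c hK.fr0 hK.lv T
  -- nondegeneracy
  have hnd : ∀ s : BT, (∀ z ∈ FxR (cw R α) T, lamT (β (f.q z) * s) = 0) → s = 0 := by
    intro s hs
    have h1 : ∀ t : BT, lamT (t * s) = 0 := by
      intro t
      obtain ⟨a₀, h2, rfl⟩ := hBQ.surj t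
      obtain ⟨z, h3, rfl⟩ := l1 a₀ h2
      exact hs z h3
    rw [← hRF.e1 s]
    exact Finset.sum_eq_zero fun k _ => Finset.sum_eq_zero fun v _ => by rw [h1, zero_smul]
  have hℓF : cv.κ (ℓ : R) = 0 := by rw [map_natCast, CharP.cast_eq_zero]
  have hρ : ∀ u ∈ T, ∀ v ∈ T, ∀ z ∈ FxR (cw R α) T, ∃ ρ : R,
      algebraMap R K ρ = (ℓ : K) * C.lamK (C.i z * kp C.i α cc u v) := by
    intro u hu v hv z hz
    exact o4 z ℓ u v (fx_comm α T hz hu) (fx_comm α T hz hv) (hK.ch.pw u)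
  have hadd : ∀ u ∈ T, ∀ u' ∈ T, ∀ v ∈ T, w (u * u') v = w u v + w u' v := by
    intro u hu u' hu' v hv
    rw [← sub_eq_zero]
    refine hnd _ fun z hz => ?_
    obtain ⟨ρ₁, h1⟩ := hρ (u * u') (T.mul_mem hu hu') v hv z hz
    obtain ⟨ρ₂, h2⟩ := hρ u hu v hv z hz
    obtain ⟨ρ₃, h3⟩ := hρ u' hu' v hv z hz
    obtain ⟨r, h4⟩ := o3 z u u' v (fx_comm α T hz hu) (fx_comm α T hz hu') (fx_comm α T hz hv)
    have h5 : ρ₁ - (ρ₂ + ρ₃) = (ℓ : R) * r := by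
      apply C.rinj
      rw [map_sub, map_add, map_mul, map_natCast, h1, h2, h3, h4]
      ring
    have h6 : cv.κ ρ₁ - (cv.κ ρ₂ + cv.κ ρ₃) = 0 := by
      rw [← map_add, ← map_sub, h5, map_mul, hℓF, zero_mul]
    rw [mul_sub, mul_add, map_sub, map_add, hw _ (T.mul_mem hu hu') v hv z hz ρ₁ h1,
      hw u hu v hv z hz ρ₂ h2, hw u' hu' v hv z hz ρ₃ h3, h6]
  refine ⟨hadd, ?_, ?_, ?_, ?_⟩
  · intro u hu v hv
    rw [← sub_eq_zero]
    refine hnd _ fun z hz => ?_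
    obtain ⟨ρ₁, h1⟩ := hρ v hv u hu z hz
    obtain ⟨ρ₂, h2⟩ := hρ u hu v hv z hz
    have h3 : ρ₁ = - ρ₂ := by
      apply C.rinj
      rw [map_neg, h1, h2, o1 u v, mul_neg, map_neg, mul_neg]
    rw [mul_sub, mul_neg, map_sub, map_neg, hw v hv u hu z hz ρ₁ h1, hw u hu v hv z hz ρ₂ h2, h3,
      map_neg, sub_self]
  · intro u hu
    refine hnd _ fun z hz => ?_
    rw [hw u hu u hu z hz 0 ?_, map_zero]
    have h1 : kp C.i α cc u u = 0 := by
      unfold kp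
      rw [sub_self, zero_mul]
    rw [h1, mul_zero, map_zero, map_zero, mul_zero]
  · intro u hu v hv huW
    refine hnd _ fun z hz => ?_
    rw [hw u hu v hv z hz 0 ?_, map_zero]
    have h1 : kp C.i α cc u v = 0 := by
      rw [o1 v u, (o2 u huW v 1).2.2.1, neg_zero]
    rw [h1, mul_zero, map_zero, map_zero, mul_zero]
  · intro u hu v hv h0 z hz
    obtain ⟨ρ, h1⟩ := hρ u hu v hv z hz
    have h2 := hw u hu v hv z hz ρ h1
    rw [h0, mul_zero, map_zero] at h2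
    obtain ⟨r, h3⟩ := (cv.ker ρ).1 h2.symm
    refine ⟨r, ?_⟩
    rw [h3, hK.pi, map_mul, map_natCast] at h1
    have hℓ : (ℓ : K) ≠ 0 := Nat.cast_ne_zero.2 hp.out.ne_zero
    exact mul_left_cancel₀ hℓ h1

end Pool.Agent.PST.H45
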